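import Pool.Agent.helper58.CRO.SpecF
import Pool.Agent.helper79.CRO.Lib

/-!
# MP_5bf3c3_gt, row VVC: continuity of the volume of balls
-/

open scoped Manifold ContDiff Topology ENNReal
open MeasureTheory Set Bundle Filter

noncomputable section

namespace Pool.Agent.CRO

theorem VVC_const {n : ℕ} (hn : 1 ≤ n) (ρ m : ℝ) (hρ : 0 ≤ ρ) :
    ∫ _x in Metric.ball (0 : En n) ρ, m = ρ ^ n * kap n * m := by
  rw [setIntegral_const, Measure.real, H79L_ball hn 0 hρ, ENNReal.toReal_ofReal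
    (mul_nonneg (pow_nonneg hρ _) (H79L_kap_nonneg n)), smul_eq_mul]

theorem VVC_diff {n : ℕ} {r0 : ℝ} (𝒢 : NChart n r0) (hn : 1 ≤ n) (r1 C : ℝ) (hr1 : r1 < r0)
    (hC : ∀ x ∈ Metric.ball (0 : En n) r1, H79L_f 𝒢 x ≤ C) (ρ ρ' : ℝ) (h0 : 0 ≤ ρ) (h1 : ρ ≤ ρ')
    (h2 : ρ' < r1) : VV 𝒢 ρ ≤ VV 𝒢 ρ' ∧
      VV 𝒢 ρ' - VV 𝒢 ρ ≤ ρ' ^ n * kap n * C - ρ ^ n * kap n * C := by
  have hi : ∀ s, s ≤ r1 → IntegrableOn (H79L_f 𝒢) (Metric.ball 0 s) := fun s hs =>
    H79L_f_int 𝒢 s (by linarith)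
  have hc : ∀ s, IntegrableOn (fun _ : En n => C) (Metric.ball 0 s) := fun s =>
    integrableOn_const measure_ball_lt_top.ne
  constructor
  · exact setIntegral_mono_set (hi ρ' h2.le)
      (Filter.Eventually.of_forall fun x => H79L_f_nonneg 𝒢 x)
      (Filter.Eventually.of_forall (Metric.ball_subset_ball h1))
  · have h3 : ∫ x in Metric.ball (0 : En n) ρ, (C - H79L_f 𝒢 x) ≤
        ∫ x in Metric.ball (0 : En n) ρ', (C - H79L_f 𝒢 x) := by
      refine setIntegral_mono_set ((hc ρ').sub (hi ρ' h2.le)) ?_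
        (Filter.Eventually.of_forall (Metric.ball_subset_ball h1))
      filter_upwards [ae_restrict_mem measurableSet_ball] with x hx
      show 0 ≤ C - H79L_f 𝒢 x
      have := hC x (Metric.ball_subset_ball h2.le hx)
      linarith
    have e1 : ∀ s, 0 ≤ s → s ≤ r1 → ∫ x in Metric.ball (0 : En n) s, (C - H79L_f 𝒢 x) =
        s ^ n * kap n * C - VV 𝒢 s := by
      intro s hs hs'
      rw [integral_sub (hc s) (hi s hs'), VVC_const hn s C hs]
      rfl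
    rw [e1 ρ h0 (by linarith), e1 ρ' (by linarith) h2.le] at h3
    linarith

theorem VVC : VVC_stmt := by
  intro n r0 𝒢 hn
  intro ρ0 hρ0
  obtain ⟨hp, hr⟩ := hρ0
  set r1 : ℝ := (ρ0 + r0) / 2 with hr1
  have h1 : ρ0 < r1 := by rw [hr1]; linarith
  have h2 : r1 < r0 := by rw [hr1]; linarith
  obtain ⟨C, hC⟩ : ∃ C, ∀ x ∈ Metric.ball (0 : En n) r1, H79L_f 𝒢 x ≤ C := by
    obtain ⟨C, hC⟩ := (isCompact_closedBall (0 : En n) r1).exists_bound_of_continuousOn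
      ((H79L_f_cont 𝒢).mono (Metric.closedBall_subset_ball h2))
    exact ⟨C, fun x hx => (le_abs_self _).trans (hC x (Metric.ball_subset_closedBall hx))⟩
  have hat : ContinuousAt (fun ρ => VV 𝒢 ρ) ρ0 := by
    have hlim : Tendsto (fun ρ : ℝ => |ρ ^ n * kap n * C - ρ0 ^ n * kap n * C|) (𝓝 ρ0) (𝓝 0) := by
      have h3 : Continuous (fun ρ : ℝ => |ρ ^ n * kap n * C - ρ0 ^ n * kap n * C|) := by
        fun_prop
      have h4 := h3.tendsto ρ0
      simpa using h4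
    have hev : ∀ᶠ ρ in 𝓝 ρ0, ‖VV 𝒢 ρ - VV 𝒢 ρ0‖ ≤
        |ρ ^ n * kap n * C - ρ0 ^ n * kap n * C| := by
      filter_upwards [Ioo_mem_nhds hp h1] with ρ hρ
      rw [Real.norm_eq_abs]
      rcases le_total ρ ρ0 with h | h
      · obtain ⟨h3, h4⟩ := VVC_diff 𝒢 hn r1 C h2 hC ρ ρ0 hρ.1.le h h1
        rw [abs_sub_comm, abs_of_nonneg (by linarith), abs_sub_comm (ρ ^ n * kap n * C)]
        exact h4.trans (le_abs_self _)
      · obtain ⟨h3, h4⟩ := VVC_diff 𝒢 hn r1 C h2 hC ρ0 ρ hp.le h hρ.2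
        rw [abs_of_nonneg (by linarith)]
        exact h4.trans (le_abs_self _)
    have h5 := squeeze_zero_norm' hev hlim
    exact tendsto_sub_nhds_zero_iff.mp h5
  exact hat.continuousWithinAt

end Pool.Agent.CRO
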