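import Pool.Agent.helper58.CRO.SpecE

/-!
# MP_5bf3c3_gt, row CNE: the volume of a cone over a piece of the sphere
-/

open scoped Manifold ContDiff Topology ENNReal
open MeasureTheory Set Bundle Filter

noncomputable section

namespace Pool.Agent.CRO

/-- the determinant and the Gram determinant -/
theorem CNE_det (m : ℕ) (A : En m →L[ℝ] En m) :
    A.det ^ 2 = Matrix.det (Matrix.of fun i j : Fin m =>
      inner ℝ (A (EuclideanSpace.single i 1)) (A (EuclideanSpace.single j 1))) := by
  set M : Matrix (Fin m) (Fin m) ℝ := LinearMap.toMatrix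
    (EuclideanSpace.basisFun (Fin m) ℝ).toBasis (EuclideanSpace.basisFun (Fin m) ℝ).toBasis
      (A : En m →ₗ[ℝ] En m) with hM
  have h1 : M.det = A.det := by
    rw [hM, LinearMap.det_toMatrix]
  have h2 : ∀ i j, M i j = (A (EuclideanSpace.single j 1)) i := by
    intro i j
    rw [hM, LinearMap.toMatrix_apply]
    simp
  have h3 : (Matrix.of fun i j : Fin m =>
      inner ℝ (A (EuclideanSpace.single i 1)) (A (EuclideanSpace.single j 1))) = M.transpose * M := by
    ext i j
    rw [Matrix.mul_apply, Matrix.of_apply, PiLp.inner_apply]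
    refine Finset.sum_congr rfl fun k _ => ?_
    rw [Matrix.transpose_apply, h2, h2]
    simp [mul_comm]
  rw [h3, Matrix.det_mul, Matrix.det_transpose, h1]
  ring

/-- the first coordinate -/
def CNE_fst (n : ℕ) : En (n + 1) →L[ℝ] ℝ := EuclideanSpace.proj (0 : Fin (n + 1))

/-- the other coordinates -/
def CNE_snd (n : ℕ) : En (n + 1) →L[ℝ] En n :=
  (EuclideanSpace.equiv (Fin n) ℝ).symm.toContinuousLinearMap.comp
    (ContinuousLinearMap.pi fun i : Fin n => (EuclideanSpace.proj (i.succ : Fin (n + 1)) : En (n + 1) →L[ℝ] ℝ))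

theorem CNE_fst_apply (n : ℕ) (z : En (n + 1)) : CNE_fst n z = z 0 := rfl

theorem CNE_snd_apply (n : ℕ) (z : En (n + 1)) (i : Fin n) : CNE_snd n z i = z i.succ := rfl

theorem CNE_mp (n : ℕ) : MeasurePreserving (fun z : En (n + 1) => (CNE_fst n z, CNE_snd n z))
    (volume : Measure (En (n + 1))) ((volume : Measure ℝ).prod (volume : Measure (En n))) := by
  have h1 := PiLp.volume_preserving_ofLp (Fin (n + 1))
  have h2 := volume_preserving_piFinSuccAbove (fun _ : Fin (n + 1) => ℝ) 0
  have h3 := (MeasurePreserving.id (volume : Measure ℝ)).prod (PiLp.volume_preserving_toLp (Fin n))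
  have h4 := (h3.comp h2).comp h1
  have h5 : (fun z : En (n + 1) => (CNE_fst n z, CNE_snd n z)) =
      ((Prod.map id (WithLp.toLp 2)) ∘ (MeasurableEquiv.piFinSuccAbove (fun _ => ℝ) 0)) ∘
        (WithLp.ofLp : En (n + 1) → (Fin (n + 1) → ℝ)) := by
    funext z
    refine Prod.ext rfl ?_
    ext i
    simp [CNE_snd_apply, MeasurableEquiv.piFinSuccAbove, Fin.removeNth]
    rfl
  rw [h5]
  exact h4

/-- the coordinates determine the vector -/
theorem CNE_ext (n : ℕ) (z w : En (n + 1)) (h1 : CNE_fst n z = CNE_fst n w)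
    (h2 : CNE_snd n z = CNE_snd n w) : z = w := by
  ext i
  refine Fin.cases h1 (fun j => ?_) i
  have := congrArg (fun v : En n => v j) h2
  exact this

theorem CNE_surj (n : ℕ) (t : ℝ) (y : En n) : ∃ z : En (n + 1), CNE_fst n z = t ∧ CNE_snd n z = y := by
  refine ⟨WithLp.toLp 2 (Fin.cons t (fun i => y i)), rfl, ?_⟩
  ext i
  rfl

theorem CNE_fst_single0 (n : ℕ) : CNE_fst n (EuclideanSpace.single 0 1) = 1 := by
  rw [CNE_fst_apply]
  simp

theorem CNE_fst_singles (n : ℕ) (i : Fin n) :
    CNE_fst n (EuclideanSpace.single i.succ 1) = 0 := by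
  rw [CNE_fst_apply]
  simp [Fin.succ_ne_zero]

theorem CNE_snd_single0 (n : ℕ) : CNE_snd n (EuclideanSpace.single 0 1) = 0 := by
  ext i
  rw [CNE_snd_apply]
  simp [Fin.succ_ne_zero]

theorem CNE_snd_singles (n : ℕ) (i : Fin n) :
    CNE_snd n (EuclideanSpace.single i.succ 1) = EuclideanSpace.single i 1 := by
  ext j
  rw [CNE_snd_apply]
  simp [Pi.single_apply]

/-- the Gram determinant of the derivative of the cone map -/
theorem CNE_gram (n : ℕ) (p : En (n + 1)) (t : ℝ) (D : En n →L[ℝ] En (n + 1)) (hp : ‖p‖ = 1)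
    (hD : ∀ v, inner ℝ p (D v) = 0) (ht : 0 < t) :
    |(t • (D.comp (CNE_snd n)) + (CNE_fst n).smulRight p).det| =
      t ^ n * Real.sqrt (Matrix.det (Matrix.of fun i j : Fin n =>
        inner ℝ (D (EuclideanSpace.single i 1)) (D (EuclideanSpace.single j 1)))) := by
  set A : En (n + 1) →L[ℝ] En (n + 1) :=
    t • (D.comp (CNE_snd n)) + (CNE_fst n).smulRight p with hA
  set G : Matrix (Fin n) (Fin n) ℝ := Matrix.of fun i j : Fin n =>
    inner ℝ (D (EuclideanSpace.single i 1)) (D (EuclideanSpace.single j 1)) with hG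
  have hA0 : A (EuclideanSpace.single 0 1) = p := by
    rw [hA]
    simp [CNE_fst_single0, CNE_snd_single0]
  have hAs : ∀ i : Fin n, A (EuclideanSpace.single i.succ 1) =
      t • D (EuclideanSpace.single i 1) := by
    intro i
    rw [hA]
    simp [CNE_fst_singles, CNE_snd_singles]
  have h1 := CNE_det (n + 1) A
  have hpp : (inner ℝ p p : ℝ) = 1 := by
    rw [real_inner_self_eq_norm_sq, hp]
    norm_num
  have h2 : Matrix.det (Matrix.of fun i j : Fin (n + 1) =>
      inner ℝ (A (EuclideanSpace.single i 1)) (A (EuclideanSpace.single j 1))) =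
      t ^ (2 * n) * G.det := by
    rw [Matrix.det_succ_row_zero, Fin.sum_univ_succ]
    have h3 : ∑ i : Fin n, (-1 : ℝ) ^ (i.succ : ℕ) *
        (Matrix.of fun i j : Fin (n + 1) =>
          inner ℝ (A (EuclideanSpace.single i 1)) (A (EuclideanSpace.single j 1))) 0 i.succ *
        ((Matrix.of fun i j : Fin (n + 1) =>
          (inner ℝ (A (EuclideanSpace.single i 1)) (A (EuclideanSpace.single j 1)) : ℝ)).submatrix
            Fin.succ (i.succ).succAbove).det = 0 := by
      refine Finset.sum_eq_zero fun i _ => ?_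
      rw [Matrix.of_apply, hA0, hAs, inner_smul_right, hD]
      simp
    rw [h3, add_zero, Matrix.of_apply, hA0, hpp]
    have h4 : (Matrix.of fun i j : Fin (n + 1) =>
          (inner ℝ (A (EuclideanSpace.single i 1)) (A (EuclideanSpace.single j 1)) : ℝ)).submatrix
            Fin.succ (Fin.succAbove 0) = (t ^ 2) • G := by
      ext i j
      rw [Matrix.submatrix_apply, Matrix.of_apply, Fin.succAbove_zero, hAs, hAs, Matrix.smul_apply,
        hG, Matrix.of_apply, inner_smul_left, inner_smul_right]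
      simp
      ring
    rw [h4, Matrix.det_smul, Fintype.card_fin, Fin.val_zero, pow_zero, one_mul, one_mul,
      ← pow_mul]
  rw [h2] at h1
  have h5 : |A.det| = Real.sqrt (A.det ^ 2) := (Real.sqrt_sq_eq_abs _).symm
  rw [h5, h1, Real.sqrt_mul (by positivity), pow_mul, ← pow_mul, mul_comm 2 n, pow_mul,
    Real.sqrt_sq (by positivity)]

/-- `f` is orthogonal to its derivative -/
theorem CNE_orth (n : ℕ) (f : En n → En (n + 1)) (O : Set (En n)) (hO : IsOpen O)
    (hf : ContDiffOn ℝ 1 f O) (hn : ∀ y ∈ O, ‖f y‖ = 1) (y : En n) (hy : y ∈ O) (v : En n) :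
    (inner ℝ (f y) (fderiv ℝ f y v) : ℝ) = 0 := by
  have h1 : HasFDerivAt f (fderiv ℝ f y) y :=
    ((hf.contDiffAt (hO.mem_nhds hy)).differentiableAt (by norm_num)).hasFDerivAt
  have h2 := h1.inner ℝ h1
  have h3 : (fun z => (inner ℝ (f z) (f z) : ℝ)) =ᶠ[𝓝 y] fun _ => (1 : ℝ) := by
    filter_upwards [hO.mem_nhds hy] with z hz
    rw [real_inner_self_eq_norm_sq, hn z hz]
    norm_num
  have h4 : HasFDerivAt (fun z => (inner ℝ (f z) (f z) : ℝ)) (0 : En n →L[ℝ] ℝ) y :=
    (hasFDerivAt_const (1 : ℝ) y).congr_of_eventuallyEq h3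
  have h5 := h2.unique h4
  have h6 := congrArg (fun L : En n →L[ℝ] ℝ => L v) h5
  simp only [ContinuousLinearMap.comp_apply, ContinuousLinearMap.prod_apply,
    fderivInnerCLM_apply, ContinuousLinearMap.zero_apply] at h6
  rw [real_inner_comm (f y) (fderiv ℝ f y v)] at h6
  linarith

/-- measurability of the Gram determinant -/
theorem CNE_meas (n : ℕ) (f : En n → En (n + 1)) : Measurable fun y : En n =>
    ENNReal.ofReal (Real.sqrt (Matrix.det
        (Matrix.of fun i j : Fin n => inner ℝ (fderiv ℝ f y (EuclideanSpace.single i 1))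
          (fderiv ℝ f y (EuclideanSpace.single j 1))))) := by
  have h1 : Continuous fun D : En n →L[ℝ] En (n + 1) => ENNReal.ofReal (Real.sqrt (Matrix.det
        (Matrix.of fun i j : Fin n => (inner ℝ (D (EuclideanSpace.single i 1))
          (D (EuclideanSpace.single j 1)) : ℝ)))) := by
    refine ENNReal.continuous_ofReal.comp (Real.continuous_sqrt.comp ?_)
    refine Continuous.matrix_det ?_
    refine continuous_matrix fun i j => ?_
    show Continuous fun D : En n →L[ℝ] En (n + 1) => (inner ℝ (D (EuclideanSpace.single i 1))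
          (D (EuclideanSpace.single j 1)) : ℝ)
    exact (ContinuousLinearMap.apply ℝ (En (n + 1)) (EuclideanSpace.single i 1)).continuous.inner
      (ContinuousLinearMap.apply ℝ (En (n + 1)) (EuclideanSpace.single j 1)).continuous
  exact h1.measurable.comp (measurable_fderiv ℝ f)

theorem CNE_int (n : ℕ) : ∫⁻ t in Ioo (0 : ℝ) 1, ENNReal.ofReal (t ^ n) =
    ENNReal.ofReal (1 / ((n : ℝ) + 1)) := by
  rw [← ofReal_integral_eq_lintegral_ofReal]
  · congr 1
    rw [← integral_Ioc_eq_integral_Ioo, ← intervalIntegral.integral_of_le (by norm_num),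
      integral_pow]
    simp
  · have h1 : IntegrableOn (fun t : ℝ => t ^ n) (Ioc 0 1) :=
      (intervalIntegrable_iff_integrableOn_Ioc_of_le (by norm_num)).mp
        (intervalIntegral.intervalIntegrable_pow n)
    exact h1.mono_set Ioo_subset_Ioc_self
  · filter_upwards [ae_restrict_mem measurableSet_Ioo] with t ht
    exact pow_nonneg ht.1.le n

theorem CNE : CNE_stmt := by
  intro n f O B hO hB hBO hf hn hinj
  set S : Set (En (n + 1)) := (fun z : En (n + 1) => (CNE_fst n z, CNE_snd n z)) ⁻¹'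
    (Ioo (0 : ℝ) 1 ×ˢ B) with hS
  have hSmem : ∀ z, z ∈ S ↔ (0 < CNE_fst n z ∧ CNE_fst n z < 1) ∧ CNE_snd n z ∈ B := by
    intro z
    rw [hS]
    rfl
  have hSm : MeasurableSet S :=
    (CNE_mp n).measurable (measurableSet_Ioo.prod hB)
  set C : En (n + 1) → En (n + 1) := fun z => CNE_fst n z • f (CNE_snd n z) with hC
  set C' : En (n + 1) → (En (n + 1) →L[ℝ] En (n + 1)) := fun z =>
    CNE_fst n z • ((fderiv ℝ f (CNE_snd n z)).comp (CNE_snd n)) +
      (CNE_fst n).smulRight (f (CNE_snd n z)) with hC'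
  have hder : ∀ z ∈ S, HasFDerivWithinAt C (C' z) S z := by
    intro z hz
    have hy : CNE_snd n z ∈ O := hBO ((hSmem z).mp hz).2
    have h1 : HasFDerivAt f (fderiv ℝ f (CNE_snd n z)) (CNE_snd n z) :=
      ((hf.contDiffAt (hO.mem_nhds hy)).differentiableAt (by norm_num)).hasFDerivAt
    have h2 : HasFDerivAt (fun w => f (CNE_snd n w))
        ((fderiv ℝ f (CNE_snd n z)).comp (CNE_snd n)) z :=
      h1.comp z (CNE_snd n).hasFDerivAt
    exact ((CNE_fst n).hasFDerivAt.smul h2).hasFDerivWithinAt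
  have hinjS : InjOn C S := by
    intro z hz w hw h
    obtain ⟨⟨z1, z2⟩, z3⟩ := (hSmem z).mp hz
    obtain ⟨⟨w1, w2⟩, w3⟩ := (hSmem w).mp hw
    have h1 : CNE_fst n z • f (CNE_snd n z) = CNE_fst n w • f (CNE_snd n w) := h
    have h2 : CNE_fst n z = CNE_fst n w := by
      have h3 := congrArg (fun v => ‖v‖) h1
      simp only [norm_smul, hn _ (hBO z3), hn _ (hBO w3), mul_one, Real.norm_eq_abs] at h3
      rwa [abs_of_pos z1, abs_of_pos w1] at h3
    have h4 : f (CNE_snd n z) = f (CNE_snd n w) := by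
      rw [h2] at h1
      exact smul_right_injective _ w1.ne' h1
    exact CNE_ext n z w h2 (hinj z3 w3 h4)
  have himg : C '' S = {p : En (n + 1) | ∃ t ∈ Ioo (0 : ℝ) 1, ∃ y ∈ B, p = t • f y} := by
    ext p
    constructor
    · rintro ⟨z, hz, rfl⟩
      exact ⟨CNE_fst n z, ((hSmem z).mp hz).1, CNE_snd n z, ((hSmem z).mp hz).2, rfl⟩
    · rintro ⟨t, ht, y, hy, rfl⟩
      obtain ⟨z, hz1, hz2⟩ := CNE_surj n t y
      refine ⟨z, (hSmem z).mpr ⟨by rw [hz1]; exact ht, by rw [hz2]; exact hy⟩, ?_⟩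
      show CNE_fst n z • f (CNE_snd n z) = t • f y
      rw [hz1, hz2]
  rw [← himg, ← lintegral_abs_det_fderiv_eq_addHaar_image volume hSm hder hinjS]
  set g : En n → ℝ≥0∞ := fun y => ENNReal.ofReal (Real.sqrt (Matrix.det
        (Matrix.of fun i j : Fin n => inner ℝ (fderiv ℝ f y (EuclideanSpace.single i 1))
          (fderiv ℝ f y (EuclideanSpace.single j 1))))) with hg
  have hgm : Measurable g := CNE_meas n f
  have h1 : ∫⁻ z in S, ENNReal.ofReal |(C' z).det| =
      ∫⁻ z in S, (fun q : ℝ × En n => ENNReal.ofReal (q.1 ^ n) * g q.2)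
        (CNE_fst n z, CNE_snd n z) := by
    refine setLIntegral_congr_fun hSm fun z hz => ?_
    obtain ⟨⟨z1, z2⟩, z3⟩ := (hSmem z).mp hz
    show ENNReal.ofReal |(C' z).det| = ENNReal.ofReal (CNE_fst n z ^ n) * g (CNE_snd n z)
    rw [hC', hg]
    show ENNReal.ofReal |(CNE_fst n z • ((fderiv ℝ f (CNE_snd n z)).comp (CNE_snd n)) +
      (CNE_fst n).smulRight (f (CNE_snd n z))).det| = _
    rw [CNE_gram n (f (CNE_snd n z)) (CNE_fst n z) (fderiv ℝ f (CNE_snd n z))
      (hn _ (hBO z3)) (CNE_orth n f O hO hf hn _ (hBO z3)) z1]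
    rw [ENNReal.ofReal_mul (by positivity)]
  rw [h1]
  have hm : Measurable (fun q : ℝ × En n => ENNReal.ofReal (q.1 ^ n) * g q.2) :=
    ((measurable_fst.pow_const n).ennreal_ofReal).mul (hgm.comp measurable_snd)
  rw [(CNE_mp n).setLIntegral_comp_preimage (measurableSet_Ioo.prod hB) hm, ← Measure.prod_restrict,
    lintegral_prod_mul (f := fun t : ℝ => ENNReal.ofReal (t ^ n)) (g := g)
      ((measurable_id.pow_const n).ennreal_ofReal).aemeasurable hgm.aemeasurable, CNE_int n]

end Pool.Agent.CRO
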