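import Pool.Agent.helper58.CRO.SpecG

/-!
Row `cro:GC2` (MP_5bf3c3_gt): the lower bound for `c_n^*`.
-/

open scoped Manifold ContDiff Topology ENNReal
open MeasureTheory Set Bundle Filter

set_option autoImplicit false

noncomputable section

namespace Pool.Agent.CRO

theorem GC2 (h1 : GF2_stmt.{0}) (h2 : GDD_stmt.{0}) (h3 : RAT_stmt) : GC2_stmt := by
  intro n hn
  unfold cstar
  apply le_sInf
  rintro c ⟨M, i1, i2, i3, i4, i5, i6, g, m, r, hr, hinj, rfl⟩
  have hs : 0 < sphereVol n := (h3 n).2.1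
  have hpi := Real.pi_pos
  have hn3 : (0 : ℝ) < (n : ℝ) + 3 := by positivity
  have hc0 : 0 ≤ ((n : ℝ) + 2) / (n + 3) * (sphereVol n / 2) * (2 / Real.pi) ^ n := by positivity
  have key := h2 n (by omega) M g (((n : ℝ) + 2) / (n + 3) * (sphereVol n / 2) * (2 / Real.pi) ^ n) hc0 (by
    intro m' s hs' hi
    have := h1 n hn M g m' s hs' hi
    have e : ((n : ℝ) + 2) / (n + 3) * (sphereVol n / 2) * (2 / Real.pi) ^ n * s ^ n
        = ((n : ℝ) + 2) / (n + 3) * (sphereVol n / 2 * (2 * s / Real.pi) ^ n) := by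
      have : (2 * s / Real.pi) ^ n = (2 / Real.pi) ^ n * s ^ n := by
        rw [← mul_pow]
        congr 1
        ring
      rw [this]
      ring
    rw [e]
    exact this) m r hr hinj
  have hrn : 0 < r ^ n := pow_pos hr n
  have e2 : 2 * (((n : ℝ) + 2) / (n + 3) * (sphereVol n / 2) * (2 / Real.pi) ^ n) * (r / 2) ^ n
      = ((n : ℝ) + 2) / (n + 3) * (sphereVol n / Real.pi ^ n) * r ^ n := by
    rw [div_pow, div_pow]
    have h2n : (2 : ℝ) ^ n ≠ 0 := by positivity
    have hpn : Real.pi ^ n ≠ 0 := by positivity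
    field_simp
  rw [e2] at key
  rw [ENNReal.le_div_iff_mul_le (Or.inl (by
      rw [Ne, ENNReal.ofReal_eq_zero, not_le]
      exact hrn)) (Or.inl ENNReal.ofReal_ne_top), ← ENNReal.ofReal_mul (by positivity)]
  exact key

end Pool.Agent.CRO
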